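import Mathlib
import Pool.Agent.H16.Radial

/-!
Radial barriers `F(t, r²)` for the circulation on a time interval `[t₁, T']`.
-/

open Set Filter Topology
open scoped Laplacian Gradient ContDiff RealInnerProductSpace
open Pool.Agent.H16

namespace Pool.Agent.H94.NS

variable {T : ℝ} {u : ℝ → E3 → E3} {p : ℝ → E3 → ℝ}

lemma shift (h : IsAxisymNS T u p) {τ : ℝ} (hτ : 0 ≤ τ) :
    IsAxisymNS (T - τ) (fun s => u (s + τ)) (fun s => p (s + τ)) where
  smooth_u := by
    have hmap : ContDiffOn ℝ ∞ (fun q : ℝ × E3 => (q.1 + τ, q.2)) (Ico 0 (T - τ) ×ˢ univ) := by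
      fun_prop
    exact h.smooth_u.comp hmap (fun q hq => ⟨⟨by linarith [hq.1.1], by linarith [hq.1.2]⟩,
      mem_univ _⟩)
  smooth_p := by
    have hmap : ContDiffOn ℝ ∞ (fun q : ℝ × E3 => (q.1 + τ, q.2)) (Ico 0 (T - τ) ×ˢ univ) := by
      fun_prop
    exact h.smooth_p.comp hmap (fun q hq => ⟨⟨by linarith [hq.1.1], by linarith [hq.1.2]⟩,
      mem_univ _⟩)
  bounded := by
    intro T' hT'
    obtain ⟨K, hK⟩ := h.bounded (T' + τ) (by linarith)
    exact ⟨K, fun t ht x => hK (t + τ) ⟨by linarith [ht.1], by linarith [ht.2]⟩ x⟩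
  axisymmetric := fun t ht θ x =>
    h.axisymmetric (t + τ) ⟨by linarith [ht.1], by linarith [ht.2]⟩ θ x
  divergence_free := fun t ht x =>
    h.divergence_free (t + τ) ⟨by linarith [ht.1], by linarith [ht.2]⟩ x
  navier_stokes := by
    intro t ht x
    have h1 := h.navier_stokes (t + τ) ⟨by linarith [ht.1], by linarith [ht.2]⟩ x
    have h2 : deriv (fun s => u (s + τ) x) t = deriv (fun s => u s x) (t + τ) :=
      deriv_comp_add_const (f := fun s => u s x) τ t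
    rw [h2]
    exact h1

/-- jet of a function of `(t, r²)` -/
lemma radial_jet2 {F Fr : ℝ → ℝ → ℝ} {t Ft Frr : ℝ} {x : E3}
    (ht : HasDerivAt (fun s => F s (rsq x)) Ft t)
    (hψ : ∀ᶠ ρ in 𝓝 (rsq x), HasDerivAt (F t) (Fr t ρ) ρ)
    (hψ' : HasDerivAt (Fr t) Frr (rsq x)) :
    LineJet (fun t x => F t (rsq x)) t x Ft (radD 1 (Fr t) x)
      (radH 1 (Fr t (rsq x)) Frr x) where
  time := ht
  line := by
    intro i
    have hcont : ContinuousAt (fun s : ℝ => rsq (x + s • e i)) 0 :=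
      (hasDerivAt_rsq_line x i 0).continuousAt
    have h0 : rsq (x + (0:ℝ) • e i) = rsq x := by simp
    have hev : ∀ᶠ s : ℝ in 𝓝 0,
        HasDerivAt (F t) (Fr t (rsq (x + s • e i))) (rsq (x + s • e i)) := by
      have : Tendsto (fun s : ℝ => rsq (x + s • e i)) (𝓝 0) (𝓝 (rsq x)) := by
        have h1 := hcont.tendsto
        rw [h0] at h1
        exact h1
      exact this.eventually hψ
    filter_upwards [hev] with s hs
    have := hs.comp s (hasDerivAt_rsq_line x i s)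
    refine this.congr_deriv ?_
    simp [radD]
  line2 := by
    intro i
    have h0 : rsq (x + (0:ℝ) • e i) = rsq x := by simp
    have h1 : HasDerivAt (fun s : ℝ => Fr t (rsq (x + s • e i)))
        (Frr * (2 * (x + (0:ℝ) • e i) 0 * e i 0 + 2 * (x + (0:ℝ) • e i) 1 * e i 1)) 0 := by
      apply HasDerivAt.comp (h₂ := Fr t) (0:ℝ) _ (hasDerivAt_rsq_line x i 0)
      rw [h0]; exact hψ'
    have h2 : HasDerivAt (fun s : ℝ => 2 * (x + s • e i) 0 * e i 0 + 2 * (x + s • e i) 1 * e i 1)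
        (2 * e i 0 * e i 0 + 2 * e i 1 * e i 1) 0 := by
      exact ((((hasDerivAt_coord (hasDerivAt_line x i 0) 0).const_mul 2).mul_const (e i 0))).add
        ((((hasDerivAt_coord (hasDerivAt_line x i 0) 1).const_mul 2).mul_const (e i 1)))
    have := (h1.mul h2).const_mul (1:ℝ)
    refine this.congr_deriv ?_
    simp only [zero_smul, add_zero, radH]
    ring

/-- The radial barrier theorem on `[t₁, T']`. -/
theorem circ_barrier2 (h : IsAxisymNS T u p) {t₁ T' : ℝ} (ht₁ : 0 ≤ t₁) (hT' : T' < T)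
    {R : ℝ} {F Fr Frr Ft : ℝ → ℝ → ℝ}
    (hc : ContinuousOn (fun q : ℝ × ℝ => F q.1 q.2) (Icc t₁ T' ×ˢ Ioc 0 (R ^ 2)))
    (hdt : ∀ t ∈ Ioc t₁ T', ∀ ρ ∈ Ioo 0 (R ^ 2), HasDerivAt (fun s => F s ρ) (Ft t ρ) t)
    (hdr : ∀ t ∈ Ioc t₁ T', ∀ ρ ∈ Ioo 0 (R ^ 2), HasDerivAt (F t) (Fr t ρ) ρ)
    (hdrr : ∀ t ∈ Ioc t₁ T', ∀ ρ ∈ Ioo 0 (R ^ 2), HasDerivAt (Fr t) (Frr t ρ) ρ)
    (h0 : ∀ t ∈ Icc t₁ T', ∀ ρ ∈ Ioc 0 (R ^ 2), 0 ≤ F t ρ)
    (hinit : ∀ x, 0 < rad x → rad x ≤ R → |circ (u t₁) x| ≤ F t₁ (rsq x))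
    (hbdry : ∀ t ∈ Icc t₁ T', ∀ x, 0 < rad x → rad x = R → |circ (u t) x| ≤ F t (rsq x))
    (hbar : ∀ t ∈ Ioc t₁ T', ∀ x, 0 < rad x → rad x < R → F t (rsq x) < |circ (u t) x| →
      4 * rsq x * Frr t (rsq x) ≤ Ft t (rsq x) + 2 * radFlux (u t) x * Fr t (rsq x)) :
    ∀ t ∈ Icc t₁ T', ∀ x, 0 < rad x → rad x ≤ R → |circ (u t) x| ≤ F t (rsq x) := by
  by_cases hR : 0 < R
  swap
  · intro t _ x hx hxR
    exact absurd (hx.trans_le hxR) hR
  have hs := shift h ht₁
  have hT'' : T' - t₁ < T - t₁ := by linarith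
  obtain ⟨K, hK⟩ := hs.bounded (T' - t₁) hT''
  have key : ∀ σ : ℝ, |σ| = 1 → ∀ t ∈ Icc 0 (T' - t₁), ∀ x ∈ {x : E3 | rad x ≤ R}, 0 < rad x →
      σ * circ (u (t + t₁)) x ≤ F (t + t₁) (rsq x) := by
    intro σ hσ
    have hle : ∀ t x, σ * circ (u t) x ≤ |circ (u t) x| := by
      intro t x
      calc σ * circ (u t) x ≤ |σ * circ (u t) x| := le_abs_self _
        _ = |circ (u t) x| := by rw [abs_mul, hσ, one_mul]
    have hcirc := hs.continuousOn_circ hT''
    have hU : IsOpen {x : E3 | rad x < R} := isOpen_lt continuous_rad continuous_const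
    have hG : IsClosed {x : E3 | rad x ≤ R} := isClosed_le continuous_rad continuous_const
    have hmem : ∀ t ∈ Icc 0 (T' - t₁), t + t₁ ∈ Icc t₁ T' := fun t ht =>
      ⟨by linarith [ht.1], by linarith [ht.2]⟩
    have hmem' : ∀ t ∈ Ioc 0 (T' - t₁), t + t₁ ∈ Ioc t₁ T' := fun t ht =>
      ⟨by linarith [ht.1], by linarith [ht.2]⟩
    refine comparison hs hT'' (f := fun t x => σ * circ (u (t + t₁)) x)
      (Φ := fun t x => F (t + t₁) (rsq x)) (G := {x : E3 | rad x ≤ R}) (U := {x : E3 | rad x < R})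
      (K := K) ?_ ?_ hG hU (fun x (hx : rad x < R) => (le_of_lt hx : rad x ≤ R)) ?_ ?_ ?_ ?_ ?_
    · exact continuousOn_const.mul hcirc
    · intro t ht x
      calc σ * circ (u (t + t₁)) x ≤ |circ (u (t + t₁)) x| := hle _ x
        _ ≤ rad x * ‖u (t + t₁) x‖ := circ_le _ _
        _ ≤ K * rad x := by
          rw [mul_comm]
          exact mul_le_mul_of_nonneg_right (hK t ht x) (rad_nonneg x)
    · have h3 : Continuous fun q : ℝ × E3 => (q.1 + t₁, rsq q.2) := by unfold rsq; fun_prop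
      refine hc.comp h3.continuousOn ?_
      rintro ⟨t, x⟩ ⟨ht, hx1, hx2⟩
      refine ⟨hmem t ht, rsq_pos hx2, ?_⟩
      change rsq x ≤ R ^ 2
      rw [← rad_sq']
      exact pow_le_pow_left₀ (rad_nonneg x) hx1 2
    · intro t ht x hx hr
      refine h0 _ (hmem t ht) _ ⟨rsq_pos hr, ?_⟩
      rw [← rad_sq']
      exact pow_le_pow_left₀ (rad_nonneg x) hx 2
    · intro x hx hr
      simp only [zero_add]
      exact (hle t₁ x).trans (hinit x hr hx)
    · intro t ht x hx hxU hr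
      have : rad x = R := le_antisymm hx (not_lt.1 hxU)
      exact (hle _ x).trans (hbdry _ (hmem t ht) x hr this)
    · intro t ht x hx hr hlt
      have ht' : t ∈ Ioo 0 (T - t₁) := ⟨ht.1, ht.2.trans_lt hT''⟩
      obtain ⟨b, D, H, hj, hin⟩ := hs.signed_circ ht' x hr σ
      have hρ : rsq x ∈ Ioo 0 (R ^ 2) := by
        refine ⟨rsq_pos hr, ?_⟩
        rw [← rad_sq']
        exact pow_lt_pow_left₀ hx (rad_nonneg x) two_ne_zero
      have htm := hmem' t ht
      have hjr := radial_jet2 (F := fun t ρ => F (t + t₁) ρ) (Fr := fun t ρ => Fr (t + t₁) ρ)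
        (t := t) (x := x) (Ft := Ft (t + t₁) (rsq x)) (Frr := Frr (t + t₁) (rsq x))
        (by
          have := (hdt (t + t₁) htm (rsq x) hρ).comp t ((hasDerivAt_id t).add_const t₁)
          simpa [Function.comp_def] using this)
        (by
          filter_upwards [Ioo_mem_nhds hρ.1 hρ.2] with ρ hρ'
          exact hdr _ htm ρ hρ') (hdrr _ htm (rsq x) hρ)
      refine ⟨b, D, H, _, _, _, 0, hj, hjr, hin, ?_⟩
      rw [radial_second _ _ _ _ hρ.1, radial_first]
      have := hbar _ htm x hr hx (hlt.trans_le (hle _ x))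
      simp only [radFlux] at this
      linarith
  intro t ht x hr hxR
  have ht0 : t - t₁ ∈ Icc 0 (T' - t₁) := ⟨by linarith [ht.1], by linarith [ht.2]⟩
  rw [abs_le]
  constructor
  · have := key (-1) (by simp) (t - t₁) ht0 x hxR hr
    rw [sub_add_cancel] at this
    linarith
  · have := key 1 (by simp) (t - t₁) ht0 x hxR hr
    rw [sub_add_cancel] at this
    linarith

end Pool.Agent.H94.NS
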