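import Mathlib
import Pool.Agent.H94.NS.Barrier

/-!
One step of the decay of the circulation under a one-sided bound `r u_r ≥ -b - m(t) r` with
`m ∈ L^q` in time, `1 ≤ q < 2`, `b < q`.
-/

open Set Filter Topology
open Pool.Agent.H16

namespace Pool.Agent.H94.NS

variable {T : ℝ} {u : ℝ → E3 → E3} {p : ℝ → E3 → ℝ}

/-! ### The profile -/

noncomputable def wA (a β ρ : ℝ) : ℝ := a * ρ ^ (β / 2)
noncomputable def wA1 (a β ρ : ℝ) : ℝ := a * (β / 2) * ρ ^ (β / 2 - 1)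
noncomputable def wA2 (a β ρ : ℝ) : ℝ := a * (β / 2) * (β / 2 - 1) * ρ ^ (β / 2 - 2)

lemma hasDerivAt_wA {a β ρ : ℝ} (h : 0 < ρ) : HasDerivAt (wA a β) (wA1 a β ρ) ρ := by
  have := (Real.hasDerivAt_rpow_const (x := ρ) (p := β / 2) (Or.inl h.ne')).const_mul a
  refine this.congr_deriv ?_
  unfold wA1; ring

lemma hasDerivAt_wA1 {a β ρ : ℝ} (h : 0 < ρ) : HasDerivAt (wA1 a β) (wA2 a β ρ) ρ := by
  have := (Real.hasDerivAt_rpow_const (x := ρ) (p := β / 2 - 1) (Or.inl h.ne')).const_mul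
    (a * (β / 2))
  refine this.congr_deriv ?_
  unfold wA2
  rw [show β / 2 - 1 - 1 = β / 2 - 2 by ring]
  ring

/-- absorption of the drift `m`: either by the gap `η/r` or by `m^q` -/
lemma young {m r η q : ℝ} (hm : 0 ≤ m) (hr : 0 < r) (hη : 0 < η) (hq : 1 ≤ q) :
    m * r ^ (1 - q) ≤ η * (r ^ (1 - q) / r) + η ^ (1 - q) * m ^ q := by
  have h1 : 0 < r ^ (1 - q) := Real.rpow_pos_of_pos hr _
  have h2 : 0 < η ^ (1 - q) := Real.rpow_pos_of_pos hη _
  have h3 : 0 ≤ m ^ q := Real.rpow_nonneg hm _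
  by_cases h : m * r ≤ η
  · have h4 : m * r ^ (1 - q) ≤ η * (r ^ (1 - q) / r) := by
      rw [← mul_div_assoc, le_div_iff₀ hr]
      calc m * r ^ (1 - q) * r = (m * r) * r ^ (1 - q) := by ring
        _ ≤ η * r ^ (1 - q) := mul_le_mul_of_nonneg_right h h1.le
    have : 0 ≤ η ^ (1 - q) * m ^ q := by positivity
    linarith
  · push Not at h
    have hm' : 0 < m := by
      by_contra hcon
      push Not at hcon
      nlinarith
    have h5 : η / m ≤ r := by
      rw [div_le_iff₀ hm']; linarith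
    have h6 : r ^ (1 - q) ≤ (η / m) ^ (1 - q) :=
      Real.rpow_le_rpow_of_nonpos (by positivity) h5 (by linarith)
    have h7 : m * (η / m) ^ (1 - q) = η ^ (1 - q) * m ^ q := by
      rw [Real.div_rpow hη.le hm'.le]
      have : m ^ q = m / m ^ (1 - q) := by
        rw [eq_div_iff (Real.rpow_pos_of_pos hm' _).ne', ← Real.rpow_add hm']
        simp
      rw [this]; ring
    have h8 : m * r ^ (1 - q) ≤ m * (η / m) ^ (1 - q) := mul_le_mul_of_nonneg_left h6 hm
    have h9 : 0 ≤ η * (r ^ (1 - q) / r) := by positivity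
    linarith

/-- the algebra of the barrier: `4ρ(w'' - w'²) ≤ -(Ω - aβη^{1-q}m^q) + 2 f w'`, `β = 2 - q` -/
lemma step_ineq {a ρ Ω f m q η : ℝ} (ha : 0 ≤ a) (hq1 : 1 ≤ q) (hq2 : q < 2) (hη : 0 < η)
    (hm : 0 ≤ m) (h0 : 0 < ρ) (hf : -(q - η) - m * √ρ ≤ f)
    (hΩ : Ω ≤ (a * (2 - q) * √ρ ^ (1 - q)) ^ 2) :
    4 * ρ * (wA2 a (2 - q) ρ - wA1 a (2 - q) ρ ^ 2) ≤
      -(Ω - a * (2 - q) * η ^ (1 - q) * m ^ q) + 2 * f * wA1 a (2 - q) ρ := by
  have hs : 0 < √ρ := Real.sqrt_pos.2 h0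
  have e1 : ρ = √ρ ^ 2 := (Real.sq_sqrt h0.le).symm
  have e2 : ρ ^ ((2 - q) / 2 - 1) = √ρ ^ (1 - q) / √ρ := by
    rw [← Real.rpow_sub_one hs.ne']
    nth_rewrite 1 [e1]
    rw [← Real.rpow_natCast (√ρ) 2, ← Real.rpow_mul hs.le]
    congr 1
    push_cast; ring
  have e3 : ρ ^ ((2 - q) / 2 - 2) = √ρ ^ (1 - q) / √ρ / ρ := by
    rw [← e2, ← Real.rpow_sub_one h0.ne']
    congr 1; ring
  have hy := young hm hs hη hq1
  set X := √ρ ^ (1 - q) with hX
  have hXp : 0 < X := Real.rpow_pos_of_pos hs _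
  unfold wA1 wA2
  rw [e2, e3]
  have k1 : 4 * ρ * (a * ((2 - q) / 2) * ((2 - q) / 2 - 1) * (X / √ρ / ρ)
        - (a * ((2 - q) / 2) * (X / √ρ)) ^ 2)
      = -(q * (a * (2 - q) * (X / √ρ))) - (a * (2 - q) * X) ^ 2 := by
    have : ρ * (X / √ρ / ρ) = X / √ρ := by field_simp
    have h2 : ρ * (X / √ρ) ^ 2 = X ^ 2 := by
      rw [div_pow, Real.sq_sqrt h0.le]; field_simp
    linear_combination (4 * (a * ((2 - q) / 2) * ((2 - q) / 2 - 1))) * this
      - (a ^ 2 * (2 - q) ^ 2) * h2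
  rw [k1]
  have hq3 : 0 < 2 - q := by linarith
  have hc : 0 ≤ a * (2 - q) := by positivity
  have h3 : (-(q - η) - m * √ρ) * (a * (2 - q) * (X / √ρ)) ≤ f * (a * (2 - q) * (X / √ρ)) :=
    mul_le_mul_of_nonneg_right hf (by positivity)
  have h4 : √ρ * (X / √ρ) = X := by field_simp
  have h5 : (-(q - η) - m * √ρ) * (a * (2 - q) * (X / √ρ))
      = -(q * (a * (2 - q) * (X / √ρ))) + η * (a * (2 - q) * (X / √ρ))
        - m * (a * (2 - q) * X) := by
    linear_combination (- m * (a * (2 - q))) * h4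
  have h6 := mul_le_mul_of_nonneg_left hy hc
  nlinarith

/-- the ratio between the radius of the cylinder used and `R` -/
noncomputable def lam (q η K : ℝ) : ℝ := (4 * (1 + η ^ (1 - q)) * K) ^ (1 / (2 - q))

/-- the exponent -/
noncomputable def expo (q η K : ℝ) : ℝ := lam q η K ^ 2 / (2 - q) ^ 2

/-- One step of the decay. -/
theorem one_step (h : IsAxisymNS T u p) {q η K R M s : ℝ} (hq1 : 1 ≤ q) (hq2 : q < 2)
    (hη : 0 < η) (hK : 1 ≤ K) (hR : 0 < R) (hs0 : 0 ≤ s - R ^ 2) (hsT : s < T) (hM : 0 ≤ M)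
    {m J : ℝ → ℝ} (hm0 : ∀ t ∈ Ico 0 T, 0 ≤ m t)
    (hJc : ContinuousOn J (Ico 0 T)) (hJd : ∀ t ∈ Ioo 0 T, HasDerivAt J (m t ^ q) t)
    (hJm : MonotoneOn J (Ico 0 T)) (hJ : J s - J (s - R ^ 2) ≤ K * R ^ (2 - q))
    (hΓ : ∀ t ∈ Icc (s - R ^ 2) s, ∀ x, 0 < rad x → rad x ≤ lam q η K * R →
      |circ (u t) x| ≤ M)
    (hq : ∀ t ∈ Icc (s - R ^ 2) s, ∀ x, 0 < rad x → rad x < lam q η K * R →
      M / 2 < |circ (u t) x| → -(q - η) - m t * rad x ≤ radFlux (u t) x) :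
    ∀ t ∈ Icc (s - 1 / 4 * R ^ 2) s, ∀ x, 0 < rad x → rad x ≤ R →
      |circ (u t) x| ≤ M * (1 - Real.exp (-expo q η K) / 2) := by
  have hβ : 0 < 2 - q := by linarith
  have hη1 : 0 < η ^ (1 - q) := Real.rpow_pos_of_pos hη _
  have hbase : 4 ≤ 4 * (1 + η ^ (1 - q)) * K := by nlinarith
  set L₀ := lam q η K with hL₀
  have hL₀p : 0 < L₀ := by
    rw [hL₀]; unfold lam; exact Real.rpow_pos_of_pos (by linarith) _
  have hL₀β : L₀ ^ (2 - q) = 4 * (1 + η ^ (1 - q)) * K := by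
    rw [hL₀]; unfold lam
    rw [← Real.rpow_mul (by linarith), one_div_mul_cancel hβ.ne', Real.rpow_one]
  have hL₀1 : 1 ≤ L₀ := by
    by_contra hcon
    push Not at hcon
    have : L₀ ^ (2 - q) ≤ 1 := Real.rpow_le_one hL₀p.le hcon.le hβ.le
    linarith
  have hL₀4 : 4 ≤ L₀ := by
    have h1 : L₀ ^ (2 - q) ≤ L₀ ^ (1:ℝ) := Real.rpow_le_rpow_of_exponent_le hL₀1 (by linarith)
    rw [Real.rpow_one] at h1
    linarith
  set t₁ := s - R ^ 2 with ht₁
  have hR2 : 0 < R ^ 2 := by positivity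
  set L := L₀ * R with hL
  have hL0 : 0 < L := by positivity
  set N := expo q η K with hN
  have hN' : N = L₀ ^ 2 / (2 - q) ^ 2 := rfl
  have hN4 : 4 ≤ N := by
    rw [hN', le_div_iff₀ (by positivity)]
    nlinarith
  have hN0 : 0 < N := by linarith
  have hLβ : 0 < L ^ (2 - q) := Real.rpow_pos_of_pos hL0 _
  have hRβ : 0 < R ^ (2 - q) := Real.rpow_pos_of_pos hR _
  have hLR : L ^ (2 - q) = (4 * (1 + η ^ (1 - q)) * K) * R ^ (2 - q) := by
    rw [hL, Real.mul_rpow hL₀p.le hR.le, hL₀β]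
  set a := N / L ^ (2 - q) with ha
  have ha0 : 0 < a := by positivity
  set Ω := N / R ^ 2 with hΩ
  have hΩ0 : 0 < Ω := by positivity
  set κ := Real.exp (-N) / 2 with hκ
  have hκ0 : 0 < κ := by positivity
  set c₀ := a * (2 - q) * η ^ (1 - q) with hc₀
  have hc₀0 : 0 < c₀ := by positivity
  set E : ℝ → ℝ → ℝ := fun t ρ => Real.exp (-wA a (2 - q) ρ + Ω * (t - t₁) - c₀ * (J t - J t₁))
    with hE
  have hwA : ∀ ρ, 0 ≤ ρ → 0 ≤ wA a (2 - q) ρ := fun ρ hρ =>
    mul_nonneg ha0.le (Real.rpow_nonneg hρ _)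
  have hsub : ∀ t ∈ Icc t₁ s, t ∈ Ico 0 T := fun t ht => ⟨hs0.trans ht.1, ht.2.trans_lt hsT⟩
  have ht₁s : t₁ ∈ Icc t₁ s := ⟨le_rfl, by rw [ht₁]; linarith⟩
  have hss : s ∈ Icc t₁ s := ⟨by rw [ht₁]; linarith, le_rfl⟩
  have hJ0 : ∀ t ∈ Icc t₁ s, 0 ≤ J t - J t₁ := fun t ht => by
    linarith [hJm (hsub _ ht₁s) (hsub t ht) ht.1]
  have hJK : ∀ t ∈ Icc t₁ s, J t - J t₁ ≤ K * R ^ (2 - q) := fun t ht => by
    linarith [hJm (hsub t ht) (hsub _ hss) ht.2]
  have hΩt : ∀ t ∈ Icc t₁ s, Ω * (t - t₁) ≤ N := fun t ht => by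
    calc Ω * (t - t₁) ≤ Ω * R ^ 2 :=
          mul_le_mul_of_nonneg_left (by rw [ht₁]; linarith [ht.2]) hΩ0.le
      _ = N := by rw [hΩ]; field_simp
  have hEN : ∀ t ∈ Icc t₁ s, ∀ ρ, 0 ≤ ρ → κ * (E t ρ - 1) ≤ 1 / 2 := by
    intro t ht ρ hρ
    have h2 : E t ρ ≤ Real.exp N :=
      Real.exp_le_exp.2 (by linarith [hwA ρ hρ, hΩt t ht, mul_nonneg hc₀0.le (hJ0 t ht)])
    have h3 : κ * Real.exp N = 1 / 2 := by
      rw [hκ, div_mul_eq_mul_div, ← Real.exp_add]; simp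
    nlinarith
  have key : ∀ t ∈ Icc t₁ s, ∀ x, 0 < rad x → rad x ≤ L →
      |circ (u t) x| ≤ M * (1 - κ * (E t (rsq x) - 1)) := by
    refine circ_barrier2 h hs0 hsT (R := L)
      (F := fun t ρ => M * (1 - κ * (E t ρ - 1)))
      (Fr := fun t ρ => M * κ * (E t ρ * wA1 a (2 - q) ρ))
      (Frr := fun t ρ => M * κ * (E t ρ * (wA2 a (2 - q) ρ - wA1 a (2 - q) ρ ^ 2)))
      (Ft := fun t ρ => - (M * κ * (E t ρ * (Ω - c₀ * m t ^ q))))
      ?_ ?_ ?_ ?_ ?_ ?_ ?_ ?_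
    · have h1 : ContinuousOn (fun z : ℝ × ℝ => J z.1) (Icc t₁ s ×ˢ Ioc 0 (L ^ 2)) :=
        hJc.comp continuousOn_fst (fun z hz => hsub _ hz.1)
      have h2 : Continuous fun z : ℝ × ℝ => wA a (2 - q) z.2 := by
        unfold wA
        exact continuous_const.mul (continuous_snd.rpow_const (fun _ => Or.inr (by positivity)))
      have h3 : ContinuousOn (fun z : ℝ × ℝ =>
          -wA a (2 - q) z.2 + Ω * (z.1 - t₁) - c₀ * (J z.1 - J t₁))
          (Icc t₁ s ×ˢ Ioc 0 (L ^ 2)) := by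
        apply ContinuousOn.sub
        · have : Continuous fun z : ℝ × ℝ => -wA a (2 - q) z.2 + Ω * (z.1 - t₁) := by fun_prop
          exact this.continuousOn
        · exact continuousOn_const.mul (h1.sub continuousOn_const)
      exact continuousOn_const.mul (continuousOn_const.sub (continuousOn_const.mul
        ((Real.continuous_exp.comp_continuousOn h3).sub continuousOn_const)))
    · intro t ht ρ _
      have h1 : HasDerivAt (fun t => -wA a (2 - q) ρ + Ω * (t - t₁)) (Ω * 1) t :=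
        (((hasDerivAt_id t).sub_const t₁).const_mul Ω).const_add _
      have h2 : HasDerivAt (fun t => c₀ * (J t - J t₁)) (c₀ * m t ^ q) t :=
        ((hJd t ⟨hs0.trans_lt ht.1, ht.2.trans_lt hsT⟩).sub_const _).const_mul c₀
      have := ((((h1.sub h2).exp).sub_const 1).const_mul κ).const_sub 1 |>.const_mul M
      refine this.congr_deriv ?_
      simp only [hE, Pi.sub_apply]
      ring
    · intro t _ ρ hρ
      have h1 : HasDerivAt (fun ρ => -wA a (2 - q) ρ + Ω * (t - t₁) - c₀ * (J t - J t₁))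
          (-wA1 a (2 - q) ρ) ρ := ((hasDerivAt_wA hρ.1).neg.add_const _).sub_const _
      have := (((h1.exp.sub_const 1).const_mul κ).const_sub 1).const_mul M
      refine this.congr_deriv ?_
      simp only [hE]
      ring
    · intro t _ ρ hρ
      have h1 : HasDerivAt (fun ρ => -wA a (2 - q) ρ + Ω * (t - t₁) - c₀ * (J t - J t₁))
          (-wA1 a (2 - q) ρ) ρ := ((hasDerivAt_wA hρ.1).neg.add_const _).sub_const _
      have := (h1.exp.mul (hasDerivAt_wA1 (a := a) (β := 2 - q) hρ.1)).const_mul (M * κ)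
      refine this.congr_deriv ?_
      simp only [hE]
      ring
    · intro t ht ρ hρ
      have := hEN t ht ρ hρ.1.le
      apply mul_nonneg hM
      linarith
    · intro x hx hxL
      refine (hΓ t₁ ht₁s x hx hxL).trans ?_
      have h1 : E t₁ (rsq x) ≤ 1 := by
        rw [hE, Real.exp_le_one_iff, sub_self, sub_self, mul_zero, mul_zero]
        linarith [hwA (rsq x) (rsq_pos hx).le]
      nlinarith [mul_nonneg hM hκ0.le]
    · intro t ht x hx hxL
      refine (hΓ t ht x hx hxL.le).trans ?_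
      have h0 : wA a (2 - q) (rsq x) = N := by
        unfold wA
        rw [← rad_sq', hxL, ← Real.rpow_natCast, ← Real.rpow_mul hL0.le, ha]
        rw [show ((2:ℕ):ℝ) * ((2 - q) / 2) = 2 - q by push_cast; ring]
        field_simp
      have h1 : E t (rsq x) ≤ 1 := by
        rw [hE, Real.exp_le_one_iff, h0]
        linarith [hΩt t ht, mul_nonneg hc₀0.le (hJ0 t ht)]
      nlinarith [mul_nonneg hM hκ0.le]
    · intro t ht x hx hxL hlt
      have ht' : t ∈ Icc t₁ s := ⟨ht.1.le, ht.2⟩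
      have hρ := rsq_pos hx
      have hM2 : M / 2 < |circ (u t) x| := by
        refine lt_of_le_of_lt ?_ hlt
        have := hEN t ht' (rsq x) hρ.le
        nlinarith
      have hq' := hq t ht' x hx hxL hM2
      have hsq : √(rsq x) = rad x := by
        rw [← rad_sq', Real.sqrt_sq hx.le]
      have hineq := step_ineq (a := a) (ρ := rsq x) (Ω := Ω) (f := radFlux (u t) x)
        (m := m t) ha0.le hq1 hq2 hη (hm0 t (hsub t ht')) hρ (by rw [hsq]; exact hq') (by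
          rw [hsq]
          have hX : L ^ (1 - q) ≤ rad x ^ (1 - q) :=
            Real.rpow_le_rpow_of_nonpos hx hxL.le (by linarith)
          have hY0 : N * (2 - q) / L ≤ a * (2 - q) * rad x ^ (1 - q) := by
            calc N * (2 - q) / L = a * (2 - q) * L ^ (1 - q) := by
                  have : L ^ (1 - q) = L ^ (2 - q) / L := by
                    rw [← Real.rpow_sub_one hL0.ne']; congr 1; ring
                  rw [ha, this]; field_simp
              _ ≤ _ := mul_le_mul_of_nonneg_left hX (by positivity)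
          have hY1 : 0 < N * (2 - q) / L := by positivity
          have hΩ2 : Ω = (N * (2 - q) / L) ^ 2 := by
            rw [hΩ, hL, hN']; field_simp
          rw [hΩ2]
          exact pow_le_pow_left₀ hY1.le hY0 2)
      have hEp : 0 ≤ M * κ * E t (rsq x) := by positivity
      have := mul_le_mul_of_nonneg_left hineq hEp
      nlinarith
  intro t ht x hx hxR
  have ht' : t ∈ Icc t₁ s := ⟨by rw [ht₁]; linarith [ht.1], ht.2⟩
  have hxL : rad x ≤ L := hxR.trans (by rw [hL]; nlinarith)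
  refine (key t ht' x hx hxL).trans ?_
  apply mul_le_mul_of_nonneg_left _ hM
  -- `E ≥ 2`
  have h1 : wA a (2 - q) (rsq x) ≤ N / 4 := by
    unfold wA
    rw [← rad_sq', ← Real.rpow_natCast, ← Real.rpow_mul hx.le,
      show ((2:ℕ):ℝ) * ((2 - q) / 2) = 2 - q by push_cast; ring]
    have h3 : rad x ^ (2 - q) ≤ R ^ (2 - q) := Real.rpow_le_rpow hx.le hxR hβ.le
    calc a * rad x ^ (2 - q) ≤ a * R ^ (2 - q) := mul_le_mul_of_nonneg_left h3 ha0.le
      _ = N / (4 * (1 + η ^ (1 - q)) * K) := by rw [ha, hLR]; field_simp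
      _ ≤ N / 4 := div_le_div_of_nonneg_left hN0.le (by norm_num) hbase
  have h2 : c₀ * (J t - J t₁) ≤ N / 4 := by
    calc c₀ * (J t - J t₁) ≤ c₀ * (K * R ^ (2 - q)) :=
          mul_le_mul_of_nonneg_left (hJK t ht') hc₀0.le
      _ = N / 4 * ((2 - q) * η ^ (1 - q) / (1 + η ^ (1 - q))) := by
          rw [hc₀, ha, hLR]; field_simp
      _ ≤ N / 4 * 1 := by
          apply mul_le_mul_of_nonneg_left _ (by positivity)
          rw [div_le_one (by positivity)]
          nlinarith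
      _ = N / 4 := mul_one _
  have h3 : 3 / 4 * N ≤ Ω * (t - t₁) := by
    calc 3 / 4 * N = Ω * (3 / 4 * R ^ 2) := by rw [hΩ]; field_simp
      _ ≤ Ω * (t - t₁) := mul_le_mul_of_nonneg_left (by rw [ht₁]; linarith [ht.1]) hΩ0.le
  have h4 : 2 ≤ E t (rsq x) := by
    have := Real.add_one_le_exp (-wA a (2 - q) (rsq x) + Ω * (t - t₁) - c₀ * (J t - J t₁))
    simp only [hE]
    linarith
  nlinarith

end Pool.Agent.H94.NS
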