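import Mathlib
import Pool.Agent.H94.NS.Step

/-!
The iteration along dyadic scales, at a logarithmic number of which the bound on `m` holds.
-/

open Set Filter Topology MeasureTheory
open Pool.Agent.H16

namespace Pool.Agent.H94.NS

variable {T : ℝ} {u : ℝ → E3 → E3} {p : ℝ → E3 → ℝ}

/-! ### Constants -/

lemma lam_eq {q η K : ℝ} (hη : 0 < η) (hK : 1 ≤ K) :
    lam q η K = K ^ (1 / (2 - q)) * lam q η 1 := by
  have hη1 : 0 < η ^ (1 - q) := Real.rpow_pos_of_pos hη _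
  unfold lam
  rw [mul_one, Real.mul_rpow (by positivity) (by linarith), mul_comm]

lemma expo_eq {q η K : ℝ} (hη : 0 < η) (hK : 1 ≤ K) :
    expo q η K = K ^ (2 / (2 - q)) * expo q η 1 := by
  unfold expo
  rw [lam_eq hη hK, mul_pow]
  have : (K ^ (1 / (2 - q))) ^ 2 = K ^ (2 / (2 - q)) := by
    rw [← Real.rpow_natCast, ← Real.rpow_mul (by linarith)]
    congr 1
    push_cast; ring
  rw [this]; ring

lemma lam_pos {q η K : ℝ} (hη : 0 < η) (hK : 1 ≤ K) : 0 < lam q η K := by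
  have hη1 : 0 < η ^ (1 - q) := Real.rpow_pos_of_pos hη _
  unfold lam
  exact Real.rpow_pos_of_pos (by positivity) _

lemma expo_pos {q η K : ℝ} (hq2 : q < 2) (hη : 0 < η) (hK : 1 ≤ K) : 0 < expo q η K := by
  have := lam_pos (q := q) hη hK
  have h2 : 0 < 2 - q := by linarith
  unfold expo
  positivity

/-- the constant `A(q, η, α, γ)` -/
noncomputable def cst (q η α γ : ℝ) : ℝ :=
  expo q η 1 + 2 * α * (lam q η 1 + 1) / min 1 γ + lam q η 1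

lemma cst_pos {q η α γ : ℝ} (hq2 : q < 2) (hη : 0 < η) (hα : 0 < α) (hγ : 0 < γ) :
    0 < cst q η α γ := by
  have h1 := lam_pos (q := q) hη le_rfl
  have h2 := expo_pos hq2 hη le_rfl
  have h3 : 0 < min 1 γ := lt_min one_pos hγ
  unfold cst
  positivity

lemma lam_le_cst {q η α γ K : ℝ} (hq2 : q < 2) (hη : 0 < η) (hα : 0 < α) (hγ : 0 < γ)
    (hK : 1 ≤ K) : lam q η K ≤ cst q η α γ * K ^ (1 / (2 - q)) := by
  rw [lam_eq hη hK, mul_comm]
  apply mul_le_mul_of_nonneg_right _ (Real.rpow_nonneg (by linarith) _)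
  have h1 := lam_pos (q := q) hη le_rfl
  have h2 := expo_pos hq2 hη le_rfl
  have h3 : 0 < min 1 γ := lt_min one_pos hγ
  have h4 : 0 ≤ 2 * α * (lam q η 1 + 1) / min 1 γ := by positivity
  unfold cst
  linarith

/-- `α ℓ ≤ κ exp (A K^{2/(2-q)})` -/
lemma gain {q η α γ K ℓ : ℝ} (hq2 : q < 2) (hη : 0 < η) (hα : 0 < α) (hγ : 0 < γ) (hK : 1 ≤ K)
    (hℓ : ℓ ≤ lam q η K + 1) :
    α * ℓ ≤ min 1 γ * (Real.exp (-expo q η K) / 2) *
      Real.exp (cst q η α γ * K ^ (2 / (2 - q))) := by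
  have h1 := lam_pos (q := q) hη le_rfl
  have h3 : 0 < min 1 γ := lt_min one_pos hγ
  have hq : 0 < 2 - q := by linarith
  set K' := K ^ (2 / (2 - q)) with hK'
  have hK1 : 1 ≤ K' := Real.one_le_rpow hK (by positivity)
  have hKK : K ^ (1 / (2 - q)) ≤ K' := by
    apply Real.rpow_le_rpow_of_exponent_le hK
    apply div_le_div_of_nonneg_right (by norm_num) hq.le
  have e1 : Real.exp (2 * α * (lam q η 1 + 1) / min 1 γ * K') ≤
      Real.exp (-expo q η K) * Real.exp (cst q η α γ * K') := by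
    rw [← Real.exp_add]
    apply Real.exp_le_exp.2
    rw [expo_eq hη hK]; unfold cst
    have : 0 ≤ lam q η 1 * K' := by positivity
    linarith
  have h4 := Real.add_one_le_exp (2 * α * (lam q η 1 + 1) / min 1 γ * K')
  have h5 : ℓ ≤ (lam q η 1 + 1) * K' := by
    rw [lam_eq hη hK] at hℓ
    nlinarith
  calc α * ℓ ≤ α * ((lam q η 1 + 1) * K') := mul_le_mul_of_nonneg_left h5 hα.le
    _ = min 1 γ / 2 * (2 * α * (lam q η 1 + 1) / min 1 γ * K') := by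
      field_simp
    _ ≤ min 1 γ / 2 * Real.exp (2 * α * (lam q η 1 + 1) / min 1 γ * K') :=
      mul_le_mul_of_nonneg_left (by linarith) (by positivity)
    _ ≤ min 1 γ / 2 * (Real.exp (-expo q η K) * Real.exp (cst q η α γ * K')) :=
      mul_le_mul_of_nonneg_left e1 (by positivity)
    _ = _ := by ring

/-! ### Counting -/

open Classical in
/-- number of good scales in `(n₀, n]` -/
noncomputable def cnt (G : ℕ → Prop) (n₀ n : ℕ) : ℕ := ((Finset.Ioc n₀ n).filter G).card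

lemma cnt_le (G : ℕ → Prop) (n₀ n : ℕ) : cnt G n₀ n ≤ n - n₀ := by
  classical
  unfold cnt
  refine (Finset.card_filter_le _ _).trans ?_
  simp

lemma cnt_succ_not {G : ℕ → Prop} {n₀ n : ℕ} (h : ¬ G (n + 1)) :
    cnt G n₀ (n + 1) ≤ cnt G n₀ n := by
  classical
  unfold cnt
  apply Finset.card_le_card
  intro k hk
  rw [Finset.mem_filter, Finset.mem_Ioc] at hk ⊢
  refine ⟨⟨hk.1.1, ?_⟩, hk.2⟩
  rcases Nat.lt_or_ge n k with h1 | h1
  · exfalso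
    have : k = n + 1 := by omega
    rw [this] at hk
    exact h hk.2
  · exact h1

lemma cnt_add (G : ℕ → Prop) (n₀ n ℓ : ℕ) : cnt G n₀ (n + ℓ) ≤ cnt G n₀ n + ℓ := by
  classical
  unfold cnt
  have h1 : (Finset.Ioc n₀ (n + ℓ)).filter G ⊆ (Finset.Ioc n₀ n).filter G ∪ Finset.Ioc n (n + ℓ) := by
    intro k hk
    rw [Finset.mem_filter, Finset.mem_Ioc] at hk
    rw [Finset.mem_union, Finset.mem_filter, Finset.mem_Ioc, Finset.mem_Ioc]
    by_cases h : k ≤ n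
    · exact Or.inl ⟨⟨hk.1.1, h⟩, hk.2⟩
    · exact Or.inr ⟨by omega, hk.1.2⟩
  refine (Finset.card_le_card h1).trans ((Finset.card_union_le _ _).trans ?_)
  simp

lemma ncard_le_cnt (G : ℕ → Prop) (n₀ N : ℕ) :
    ({n : ℕ | n ≤ N ∧ G n} : Set ℕ).ncard ≤ cnt G n₀ N + (n₀ + 1) := by
  classical
  have h1 : ({n : ℕ | n ≤ N ∧ G n} : Set ℕ)
      ⊆ ↑((Finset.Ioc n₀ N).filter G ∪ Finset.range (n₀ + 1)) := by
    intro n hn
    rw [Finset.mem_coe, Finset.mem_union, Finset.mem_filter, Finset.mem_Ioc, Finset.mem_range]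
    by_cases h : n₀ < n
    · exact Or.inl ⟨⟨h, hn.1⟩, hn.2⟩
    · exact Or.inr (by omega)
  refine (Set.ncard_le_ncard h1 (Finset.finite_toSet _)).trans ?_
  rw [Set.ncard_coe_finset]
  refine (Finset.card_union_le _ _).trans ?_
  rw [Finset.card_range]
  rfl

/-! ### The iteration -/

/-- The iteration over dyadic scales at a fixed final time `s`. -/
theorem iterate (h : IsAxisymNS T u p) {q η γ r₀ t₀ C₁ M K s : ℝ} (hq1 : 1 ≤ q) (hq2 : q < 2)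
    (hη : 0 < η) (hγ : 0 < γ) (ht₀ : 0 ≤ t₀) (hsT : s < T)
    (hM : ∀ t ∈ Ico 0 T, ∀ x, |circ (u t) x| ≤ M) (hM0 : 0 ≤ M) (hC : 2 * C₁ ≤ M)
    {m J : ℕ → ℝ → ℝ} (hm0 : ∀ n, ∀ t ∈ Ico 0 T, 0 ≤ m n t)
    (hJc : ∀ n, ContinuousOn (J n) (Ico 0 T))
    (hJd : ∀ n, ∀ t ∈ Ioo 0 T, HasDerivAt (J n) (m n t ^ q) t)
    (hJm : ∀ n, MonotoneOn (J n) (Ico 0 T))
    (hyp : ∀ n : ℕ, ∀ t ∈ Ioo t₀ T, ∀ x, 0 < rad x → rad x < r₀ →
      rad x < lam q η K * (1 / 2 : ℝ) ^ n → |circ (u t) x| ≤ C₁ * rad x ^ γ ∨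
      -(q - η) - m n t * rad x ≤ radFlux (u t) x)
    {n₀ ℓ : ℕ} (hn₀r : (1 / 2 : ℝ) ^ n₀ ≤ r₀) (hn₀t : t₀ < s - (1 / 4 : ℝ) ^ n₀)
    (hK : 1 ≤ K) (hℓ1 : 1 ≤ ℓ) (hℓ : lam q η K ≤ 2 ^ ℓ) {G : ℕ → Prop}
    (hG : ∀ n, n₀ ≤ n → G n →
      J n s - J n (s - (1 / 4 : ℝ) ^ n) ≤ K * ((1 / 2 : ℝ) ^ n) ^ (2 - q)) :
    ∀ n ≥ n₀, ∀ t ∈ Icc (s - 1 / 4 * (1 / 4 : ℝ) ^ n) s, ∀ x, 0 < rad x →
      rad x ≤ (1 / 2 : ℝ) ^ n →
      |circ (u t) x| ≤ M * (1 - min 1 γ * (Real.exp (-expo q η K) / 2)) ^ (cnt G n₀ n / ℓ) := by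
  set κ := min 1 γ * (Real.exp (-expo q η K) / 2) with hκ
  have hexpo : 0 < expo q η K := expo_pos hq2 hη hK
  have hE1 : Real.exp (-expo q η K) ≤ 1 := Real.exp_le_one_iff.2 (by linarith)
  have hE0 := Real.exp_pos (-expo q η K)
  have hγ1 : 0 < min 1 γ := lt_min one_pos hγ
  have hγ2 : min 1 γ ≤ 1 := min_le_left _ _
  have hκ0 : 0 < κ := by positivity
  have hκ2 : κ ≤ min 1 γ / 2 := by
    rw [hκ]; nlinarith
  have hκ' : κ ≤ Real.exp (-expo q η K) / 2 := by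
    rw [hκ]; nlinarith
  have hq0 : 0 < 1 - κ := by linarith
  have hq1' : 1 - κ ≤ 1 := by linarith
  -- `(1/2)^γ ≤ 1 - κ`
  have hhalf : (1 / 2 : ℝ) ^ γ ≤ 1 - κ := by
    have h1 : (1 / 2 : ℝ) ^ γ ≤ (1 / 2 : ℝ) ^ (min 1 γ) :=
      Real.rpow_le_rpow_of_exponent_ge (by norm_num) (by norm_num) (min_le_right _ _)
    have h2 : (1 + (-(1/2) : ℝ)) ^ (min 1 γ) ≤ 1 + min 1 γ * (-(1/2)) :=
      rpow_one_add_le_one_add_mul_self (by norm_num) hγ1.le hγ2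
    have h3 : (1 / 2 : ℝ) ^ (min 1 γ) ≤ 1 + min 1 γ * (-(1/2)) := by
      convert h2 using 2; norm_num
    linarith
  have h4pos : ∀ n : ℕ, (0:ℝ) < (1 / 4) ^ n := fun n => by positivity
  have h4anti : ∀ {a b : ℕ}, a ≤ b → (1 / 4 : ℝ) ^ b ≤ (1 / 4) ^ a := fun h =>
    pow_le_pow_of_le_one (by norm_num) (by norm_num) h
  have h2anti : ∀ {a b : ℕ}, a ≤ b → (1 / 2 : ℝ) ^ b ≤ (1 / 2) ^ a := fun h =>
    pow_le_pow_of_le_one (by norm_num) (by norm_num) h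
  have hsq : ∀ n : ℕ, ((1 / 2 : ℝ) ^ n) ^ 2 = (1 / 4) ^ n := by
    intro n
    rw [← pow_mul, mul_comm, pow_mul]; norm_num
  have htpos : ∀ n ≥ n₀, ∀ t, s - (1 / 4 : ℝ) ^ n ≤ t → t₀ < t := by
    intro n hn t ht
    have := h4anti hn
    linarith
  intro n
  induction n using Nat.strong_induction_on with
  | _ n ih =>
  intro hn t ht x hx hxR
  have ht' : t ∈ Ico 0 T := ⟨by
    have := htpos n hn t (by linarith [ht.1, h4pos n])
    linarith, ht.2.trans_lt hsT⟩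
  by_cases hlt : n < n₀ + ℓ ∧ (n = n₀ ∨ G n) ∨ n = n₀
  · -- the count is `< ℓ`
    have hc : cnt G n₀ n / ℓ = 0 := by
      apply Nat.div_eq_of_lt
      have := cnt_le G n₀ n
      rcases hlt with h1 | h1
      · omega
      · omega
    rw [hc, pow_zero, mul_one]
    exact hM t ht' x
  · have hne : n ≠ n₀ := fun h => hlt (Or.inr h)
    by_cases hGn : G n
    · have hge : n₀ + ℓ ≤ n := by
        by_contra h1
        exact hlt (Or.inl ⟨by omega, Or.inr hGn⟩)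
      obtain ⟨k, rfl⟩ : ∃ k, n = k + ℓ := ⟨n - ℓ, by omega⟩
      have hk : n₀ ≤ k := by omega
      have ihk := ih k (by omega) hk
      set Mk := M * (1 - κ) ^ (cnt G n₀ k / ℓ) with hMk
      have hMk0 : 0 ≤ Mk := by positivity
      have hR : (0:ℝ) < (1 / 2) ^ (k + ℓ) := by positivity
      have hlamR : lam q η K * (1 / 2 : ℝ) ^ (k + ℓ) ≤ (1 / 2) ^ k := by
        rw [pow_add]
        calc lam q η K * ((1 / 2 : ℝ) ^ k * (1 / 2) ^ ℓ)
            ≤ 2 ^ ℓ * ((1 / 2 : ℝ) ^ k * (1 / 2) ^ ℓ) :=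
              mul_le_mul_of_nonneg_right hℓ (by positivity)
          _ = (1 / 2 : ℝ) ^ k * (2 * (1 / 2)) ^ ℓ := by rw [mul_pow]; ring
          _ = _ := by norm_num
      have h4k : (1 / 4 : ℝ) ^ (k + ℓ) ≤ 1 / 4 * (1 / 4) ^ k := by
        have := h4anti (show k + 1 ≤ k + ℓ by omega)
        rw [pow_succ] at this
        linarith
      have hTk : s - (1 / 4 : ℝ) ^ (k + ℓ) > t₀ := htpos (k + ℓ) hn _ le_rfl
      have hstep := one_step h hq1 hq2 hη hK hR (by rw [hsq]; linarith) hsT hMk0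
        (hm0 (k + ℓ)) (hJc (k + ℓ)) (hJd (k + ℓ)) (hJm (k + ℓ))
        (by rw [hsq]; exact hG (k + ℓ) hn hGn)
        (by
          intro s' hs x hx hxR
          rw [hsq] at hs
          exact ihk s' ⟨by linarith [hs.1], hs.2⟩ x hx (hxR.trans hlamR))
        (by
          intro s' hs x hx hxR hgt
          rw [hsq] at hs
          have hxk : rad x < (1 / 2 : ℝ) ^ k := hxR.trans_le hlamR
          rcases hyp (k + ℓ) s' ⟨by linarith [hs.1], hs.2.trans_lt hsT⟩ x hx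
            (hxk.trans_le ((h2anti hk).trans hn₀r)) hxR with h1 | h1
          · exfalso
            have h2 : rad x ^ γ ≤ (1 - κ) ^ k := by
              calc rad x ^ γ ≤ ((1 / 2 : ℝ) ^ k) ^ γ := Real.rpow_le_rpow hx.le hxk.le hγ.le
                _ = ((1 / 2 : ℝ) ^ γ) ^ k := by
                  rw [← Real.rpow_natCast, ← Real.rpow_natCast, ← Real.rpow_mul (by norm_num),
                    ← Real.rpow_mul (by norm_num), mul_comm]
                _ ≤ (1 - κ) ^ k := pow_le_pow_left₀ (by positivity) hhalf k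
            have h3 : (1 - κ) ^ k ≤ (1 - κ) ^ (cnt G n₀ k / ℓ) := by
              apply pow_le_pow_of_le_one hq0.le hq1'
              have h4 := cnt_le G n₀ k
              have h5 := Nat.div_le_self (cnt G n₀ k) ℓ
              omega
            have h6 : C₁ * rad x ^ γ ≤ M / 2 * rad x ^ γ :=
              mul_le_mul_of_nonneg_right (by linarith) (Real.rpow_nonneg hx.le _)
            have h7 : M / 2 * rad x ^ γ ≤ M / 2 * (1 - κ) ^ (cnt G n₀ k / ℓ) :=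
              mul_le_mul_of_nonneg_left (h2.trans h3) (by linarith)
            have h8 : M / 2 * (1 - κ) ^ (cnt G n₀ k / ℓ) = Mk / 2 := by rw [hMk]; ring
            linarith
          · exact h1)
        t (by rw [hsq]; exact ht) x hx hxR
      refine hstep.trans ?_
      have h9 : Mk * (1 - Real.exp (-expo q η K) / 2) ≤ Mk * (1 - κ) :=
        mul_le_mul_of_nonneg_left (by linarith) hMk0
      refine h9.trans ?_
      rw [hMk, mul_assoc, ← pow_succ]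
      apply mul_le_mul_of_nonneg_left _ hM0
      apply pow_le_pow_of_le_one hq0.le hq1'
      have h10 := cnt_add G n₀ k ℓ
      calc cnt G n₀ (k + ℓ) / ℓ ≤ (cnt G n₀ k + ℓ) / ℓ := Nat.div_le_div_right h10
        _ = cnt G n₀ k / ℓ + 1 := Nat.add_div_right _ (by omega)
    · -- bad scale
      obtain ⟨k, rfl⟩ : ∃ k, n = k + 1 := ⟨n - 1, by omega⟩
      have hk : n₀ ≤ k := by omega
      have h1 := ih k (by omega) hk t ⟨by
        have := h4anti (show k ≤ k + 1 by omega)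
        linarith [ht.1], ht.2⟩ x hx (hxR.trans (h2anti (by omega)))
      refine h1.trans ?_
      apply mul_le_mul_of_nonneg_left _ hM0
      apply pow_le_pow_of_le_one hq0.le hq1'
      exact Nat.div_le_div_right (cnt_succ_not hGn)

/-- The decay at a fixed final time in terms of the number of good scales. -/
theorem decay (h : IsAxisymNS T u p) {q η α γ r₀ t₀ C₁ M K s : ℝ} (hq1 : 1 ≤ q) (hq2 : q < 2)
    (hη : 0 < η) (hα : 0 < α) (hγ : 0 < γ) (ht₀ : 0 ≤ t₀) (hsT : s < T)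
    (hM : ∀ t ∈ Ico 0 T, ∀ x, |circ (u t) x| ≤ M) (hM0 : 0 ≤ M) (hC : 2 * C₁ ≤ M)
    {m J : ℕ → ℝ → ℝ} (hm0 : ∀ n, ∀ t ∈ Ico 0 T, 0 ≤ m n t)
    (hJc : ∀ n, ContinuousOn (J n) (Ico 0 T))
    (hJd : ∀ n, ∀ t ∈ Ioo 0 T, HasDerivAt (J n) (m n t ^ q) t)
    (hJm : ∀ n, MonotoneOn (J n) (Ico 0 T))
    (hyp : ∀ n : ℕ, ∀ t ∈ Ioo t₀ T, ∀ x, 0 < rad x → rad x < r₀ →
      rad x < lam q η K * (1 / 2 : ℝ) ^ n → |circ (u t) x| ≤ C₁ * rad x ^ γ ∨
      -(q - η) - m n t * rad x ≤ radFlux (u t) x)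
    {n₀ N : ℕ} (hn₀r : (1 / 2 : ℝ) ^ n₀ ≤ r₀) (hn₀t : t₀ < s - (1 / 4 : ℝ) ^ n₀)
    (hNn₀ : n₀ ≤ N) (hN1 : 1 ≤ N) (hK : 1 ≤ K) {G : ℕ → Prop}
    (hG : ∀ n, n₀ ≤ n → G n →
      J n s - J n (s - (1 / 4 : ℝ) ^ n) ≤ K * ((1 / 2 : ℝ) ^ n) ^ (2 - q))
    (hKN : Real.exp (cst q η α γ * K ^ (2 / (2 - q))) * Real.log N ≤
      ({n : ℕ | n ≤ N ∧ G n} : Set ℕ).ncard) :
    ∀ x, 0 < rad x → rad x ≤ (1 / 2 : ℝ) ^ N →
      |circ (u s) x| ≤ M * Real.exp (n₀ + 2) * (N:ℝ) ^ (-α) := by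
  intro x hx hxN
  have hN1' : (0:ℝ) < N := by exact_mod_cast hN1
  have hlam : 0 < lam q η K := lam_pos hη hK
  set ℓ : ℕ := ⌈lam q η K⌉₊ with hℓ
  have hℓ1 : 1 ≤ ℓ := Nat.one_le_iff_ne_zero.2 (by
    rw [hℓ]; exact (Nat.ceil_pos.2 hlam).ne')
  have hℓlam : lam q η K ≤ ℓ := Nat.le_ceil _
  have hℓlam' : (ℓ:ℝ) ≤ lam q η K + 1 := (Nat.ceil_lt_add_one hlam.le).le
  have hℓ2 : lam q η K ≤ 2 ^ ℓ := by
    refine hℓlam.trans ?_
    exact_mod_cast (Nat.lt_two_pow_self (n := ℓ)).le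
  have hmain := iterate h hq1 hq2 hη hγ ht₀ hsT hM hM0 hC hm0 hJc hJd hJm hyp hn₀r hn₀t hK hℓ1 hℓ2
    hG N hNn₀ s ⟨by have : (0:ℝ) < (1 / 4) ^ N := by positivity
                    linarith, le_rfl⟩ x hx hxN
  refine hmain.trans ?_
  set κ := min 1 γ * (Real.exp (-expo q η K) / 2) with hκ
  have hγ1 : 0 < min 1 γ := lt_min one_pos hγ
  have hκ0 : 0 < κ := by positivity
  have hexpo : 0 < expo q η K := expo_pos hq2 hη hK
  have hκ1 : κ ≤ 1 := by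
    have hE1 : Real.exp (-expo q η K) ≤ 1 := Real.exp_le_one_iff.2 (by linarith)
    have hE0 := Real.exp_pos (-expo q η K)
    have := min_le_left 1 γ
    rw [hκ]; nlinarith
  have hcard := ncard_le_cnt G n₀ N
  set c₀ := cnt G n₀ N with hc₀
  have hcard' : (({n : ℕ | n ≤ N ∧ G n} : Set ℕ).ncard : ℝ) ≤ c₀ + (n₀ + 1) := by
    exact_mod_cast hcard
  have hlogN : 0 ≤ Real.log N := Real.log_nonneg (by exact_mod_cast hN1)
  have hℓ0 : (0:ℝ) < ℓ := by exact_mod_cast hℓ1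
  have hℓ1' : (1:ℝ) ≤ ℓ := by exact_mod_cast hℓ1
  have hdiv : (c₀:ℝ) / ℓ - 1 ≤ ((c₀ / ℓ : ℕ) : ℝ) := by
    have h1 : (c₀:ℝ) < ℓ * ((c₀ / ℓ : ℕ) + 1 : ℕ) := by
      exact_mod_cast Nat.lt_mul_div_succ c₀ (by omega)
    push_cast at h1
    rw [sub_le_iff_le_add, div_le_iff₀ hℓ0]
    linarith
  have hgain := gain hq2 hη hα hγ hK hℓlam'
  rw [← hκ] at hgain
  have h2 : α * Real.log N ≤ κ * (c₀ / ℓ) + (n₀ + 1) := by
    have h3 : α * ℓ * Real.log N ≤ κ * (c₀ + (n₀ + 1)) := by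
      calc α * ℓ * Real.log N
          ≤ κ * Real.exp (cst q η α γ * K ^ (2 / (2 - q))) * Real.log N :=
            mul_le_mul_of_nonneg_right hgain hlogN
        _ = κ * (Real.exp (cst q η α γ * K ^ (2 / (2 - q))) * Real.log N) := by ring
        _ ≤ κ * (c₀ + (n₀ + 1)) := mul_le_mul_of_nonneg_left (hKN.trans hcard') hκ0.le
    have h4 : α * Real.log N ≤ κ * (c₀ + (n₀ + 1)) / ℓ := by
      rw [le_div_iff₀ hℓ0]; linarith
    have h5 : κ * (c₀ + (n₀ + 1)) / ℓ = κ * (c₀ / ℓ) + κ * (n₀ + 1) / ℓ := by ring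
    have h6 : κ * ((n₀:ℝ) + 1) / ℓ ≤ n₀ + 1 := by
      rw [div_le_iff₀ hℓ0]
      have : (0:ℝ) ≤ n₀ := Nat.cast_nonneg _
      nlinarith
    linarith
  have h7 : (1 - κ) ^ (c₀ / ℓ) ≤ Real.exp (n₀ + 2) * (N:ℝ) ^ (-α) := by
    have h8 : (1 - κ) ^ (c₀ / ℓ) ≤ Real.exp (-κ) ^ (c₀ / ℓ) := by
      apply pow_le_pow_left₀ (by linarith)
      linarith [Real.add_one_le_exp (-κ)]
    refine h8.trans ?_
    rw [← Real.exp_nat_mul, Real.rpow_def_of_pos hN1', ← Real.exp_add]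
    apply Real.exp_le_exp.2
    have h9 : κ * ((c₀:ℝ) / ℓ - 1) ≤ κ * ((c₀ / ℓ : ℕ) : ℝ) :=
      mul_le_mul_of_nonneg_left hdiv hκ0.le
    linarith
  calc M * (1 - κ) ^ (c₀ / ℓ) ≤ M * (Real.exp (n₀ + 2) * (N:ℝ) ^ (-α)) :=
        mul_le_mul_of_nonneg_left h7 hM0
    _ = _ := by ring

end Pool.Agent.H94.NS
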