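import Mathlib
import Pool.Agent.H94.NS.Dyadic

/-!
A one-sided, local, critical Morrey criterion in time for the radial velocity of axisymmetric
Navier-Stokes flows (it contains one-sided type I bounds), needed only at a logarithmic number of
the dyadic scales.
-/

open Set Filter Topology MeasureTheory
open Pool.Agent.H16 Pool.Agent.H94.NS

namespace Pool.Agent.H94.NS.MorreyInflowParked

lemma hasDerivAt_prim {T : ℝ} {f : ℝ → ℝ} (hf : ContinuousOn f (Ico 0 T)) {t : ℝ}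
    (ht : t ∈ Ioo 0 T) : HasDerivAt (fun t => ∫ s in (0:ℝ)..t, f s) (f t) t := by
  apply intervalIntegral.integral_hasDerivAt_right
  · apply ContinuousOn.intervalIntegrable
    rw [uIcc_of_le ht.1.le]
    exact hf.mono (fun s hs => ⟨hs.1, hs.2.trans_lt ht.2⟩)
  · exact (hf.mono Ioo_subset_Ico_self).stronglyMeasurableAtFilter isOpen_Ioo t ht
  · exact (hf.mono Ioo_subset_Ico_self).continuousAt (isOpen_Ioo.mem_nhds ht)

lemma continuousOn_prim {T : ℝ} {f : ℝ → ℝ} (hf : ContinuousOn f (Ico 0 T)) :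
    ContinuousOn (fun t => ∫ s in (0:ℝ)..t, f s) (Ico 0 T) := by
  intro t ht
  have h1 : t ≤ (t + T) / 2 := by linarith [ht.2]
  have h2 : IntegrableOn f (uIcc 0 ((t + T) / 2)) := by
    rw [uIcc_of_le (ht.1.trans h1)]
    exact (hf.mono (fun s hs => ⟨hs.1, hs.2.trans_lt (by linarith [ht.2])⟩)).integrableOn_Icc
  have h3 := intervalIntegral.continuousOn_primitive_interval h2
  rw [uIcc_of_le (ht.1.trans h1)] at h3
  have h4 : Icc 0 ((t + T) / 2) ∈ 𝓝[Ico 0 T] t := by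
    have : Iio ((t + T) / 2) ∩ Ico 0 T ⊆ Icc 0 ((t + T) / 2) :=
      fun s hs => ⟨hs.2.1, le_of_lt hs.1⟩
    refine mem_of_superset ?_ this
    exact inter_mem (mem_nhdsWithin_of_mem_nhds (Iio_mem_nhds (by linarith [ht.2])))
      self_mem_nhdsWithin
  exact (h3 t ⟨ht.1, h1⟩).mono_of_mem_nhdsWithin h4

lemma prim_sub {T : ℝ} {f : ℝ → ℝ} (hf : ContinuousOn f (Ico 0 T)) {a b : ℝ} (ha : a ∈ Ico 0 T)
    (hb : b ∈ Ico 0 T) : (∫ s in (0:ℝ)..b, f s) - ∫ s in (0:ℝ)..a, f s = ∫ s in a..b, f s := by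
  have hi : ∀ c ∈ Ico 0 T, IntervalIntegrable f volume 0 c := by
    intro c hc
    apply ContinuousOn.intervalIntegrable
    rw [uIcc_of_le hc.1]
    exact hf.mono (fun s hs => ⟨hs.1, hs.2.trans_lt hc.2⟩)
  exact intervalIntegral.integral_interval_sub_left (hi b hb) (hi a ha)

lemma le_log {r α : ℝ} (hr : 0 < r) (hr1 : r < 1) (hα : 0 < α) :
    r ≤ α ^ α * |Real.log r| ^ (-α) := by
  have hl : 0 < |Real.log r| := abs_pos.2 (Real.log_neg hr hr1).ne
  have h2 := Real.abs_log_mul_self_rpow_lt r (1 / α) hr hr1.le (by positivity)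
  rw [one_div_one_div, abs_mul, abs_of_nonneg (Real.rpow_nonneg hr.le _)] at h2
  have h3 : (|Real.log r| * r ^ (1 / α)) ^ α ≤ α ^ α :=
    Real.rpow_le_rpow (by positivity) h2.le hα.le
  rw [Real.mul_rpow (abs_nonneg _) (Real.rpow_nonneg hr.le _), ← Real.rpow_mul hr.le,
    one_div_mul_cancel hα.ne', Real.rpow_one] at h3
  calc r = (|Real.log r| ^ α * r) * |Real.log r| ^ (-α) := by
        have : |Real.log r| ^ α * |Real.log r| ^ (-α) = 1 := by
          rw [← Real.rpow_add hl]; simp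
        linear_combination (- r) * this
    _ ≤ _ := mul_le_mul_of_nonneg_right h3 (Real.rpow_nonneg (abs_nonneg _) _)

/-- **One-sided critical Morrey criterion on a logarithmic number of scales.** -/
theorem result (b q α γ : ℝ) (hq1 : 1 ≤ q) (hq2 : q < 2) (hb : b < q) (hα : 0 < α)
    (hγ : 0 < γ) :
    ∃ A : ℝ, 0 < A ∧ ∀ (T : ℝ) (u : ℝ → E3 → E3) (p : ℝ → E3 → ℝ), IsAxisymNS T u p →
      (∃ M, ∀ x, |circ (u 0) x| ≤ M) →
      ∀ r₀ t₀ C₁ : ℝ, 0 < r₀ → r₀ < 1 → 0 ≤ t₀ → t₀ < T →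
      ∀ m : ℝ → ℝ → ℝ, (∀ ρ > 0, ContinuousOn (m ρ) (Ico 0 T)) →
      (∀ ρ > 0, ∀ t ∈ Ico 0 T, 0 ≤ m ρ t) →
      (∀ ρ > 0, ∀ t ∈ Ioo t₀ T, ∀ x, 0 < rad x → rad x < ρ → rad x < r₀ →
        |circ (u t) x| ≤ C₁ * rad x ^ γ ∨ -b - m ρ t * rad x ≤ radFlux (u t) x) →
      (∃ N₀ : ℕ, ∀ N ≥ N₀, ∀ s ∈ Ioo t₀ T, ∃ K : ℝ, 1 ≤ K ∧
        Real.exp (A * K ^ (2 / (2 - q))) * Real.log N ≤
          ({n : ℕ | n ≤ N ∧
            ∫ t in (s - (1 / 4) ^ n)..s, m (A * K ^ (1 / (2 - q)) * (1 / 2) ^ n) t ^ q ≤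
              K * (1 / 2) ^ ((2 - q) * n)} : Set ℕ).ncard) →
      ∃ C, ∀ t ∈ Ico 0 T, ∀ x, 0 < rad x → rad x < r₀ →
        |circ (u t) x| ≤ C * |Real.log (rad x)| ^ (-α) := by
  set η : ℝ := q - b with hη'
  have hη : 0 < η := by rw [hη']; linarith
  refine ⟨cst q η α γ, cst_pos hq2 hη hα hγ, ?_⟩
  intro T u p h hΓ r₀ t₀ C₁ hr₀ hr₁ ht₀ ht₁ m hmc hm0 hyp hcount
  obtain ⟨M, hM⟩ := hΓ
  have hMt := h.circ_max hM
  obtain ⟨N₀, hN₀⟩ := hcount
  have hT0 : 0 < T := ht₀.trans_lt ht₁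
  have hM0 : 0 ≤ M := (abs_nonneg _).trans (hM 0)
  have hApos := cst_pos (γ := γ) hq2 hη hα hγ
  -- the primitive
  have hmq : ∀ ρ > 0, ContinuousOn (fun t => m ρ t ^ q) (Ico 0 T) := fun ρ hρ =>
    (hmc ρ hρ).rpow_const (fun t _ => Or.inr (by linarith))
  set J : ℝ → ℝ → ℝ := fun ρ t => ∫ s in (0:ℝ)..t, m ρ s ^ q with hJ
  have hJc : ∀ ρ > 0, ContinuousOn (J ρ) (Ico 0 T) := fun ρ hρ => continuousOn_prim (hmq ρ hρ)
  have hJd : ∀ ρ > 0, ∀ t ∈ Ioo 0 T, HasDerivAt (J ρ) (m ρ t ^ q) t := fun ρ hρ t ht =>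
    hasDerivAt_prim (hmq ρ hρ) ht
  have hJm : ∀ ρ > 0, MonotoneOn (J ρ) (Ico 0 T) := by
    intro ρ hρ a ha c hc hac
    have h1 := prim_sub (hmq ρ hρ) ha hc
    have h2 : 0 ≤ ∫ s in a..c, m ρ s ^ q := by
      apply intervalIntegral.integral_nonneg hac
      intro s hs
      exact Real.rpow_nonneg (hm0 ρ hρ s ⟨ha.1.trans hs.1, hs.2.trans_lt hc.2⟩) _
    simp only [hJ]
    linarith
  -- the base scale
  set t₂ := (t₀ + T) / 2 with ht₂
  have ht₂0 : t₀ < t₂ := by rw [ht₂]; linarith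
  have ht₂T : t₂ < T := by rw [ht₂]; linarith
  have hev1 : ∀ᶠ n : ℕ in atTop, (1 / 2 : ℝ) ^ n < r₀ :=
    (tendsto_pow_atTop_nhds_zero_of_lt_one (by norm_num) (by norm_num)).eventually_lt_const hr₀
  have hev2 : ∀ᶠ n : ℕ in atTop, (1 / 4 : ℝ) ^ n < t₂ - t₀ :=
    (tendsto_pow_atTop_nhds_zero_of_lt_one (by norm_num) (by norm_num)).eventually_lt_const
      (by linarith)
  obtain ⟨n₀, hn₀r, hn₀t⟩ := (hev1.and hev2).exists
  set N₁ := max (max N₀ n₀) 1 with hN₁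
  set M₁ := max (max M (2 * C₁)) 0 with hM₁
  have hM₁0 : 0 ≤ M₁ := le_max_right _ _
  have hMM₁ : M ≤ M₁ := (le_max_left _ _).trans (le_max_left _ _)
  have hCM₁ : 2 * C₁ ≤ M₁ := (le_max_right _ _).trans (le_max_left _ _)
  -- decay in terms of `N`
  have hdec : ∀ N ≥ N₁, ∀ s ∈ Ico t₂ T, ∀ x, 0 < rad x →
      rad x ≤ (1 / 2 : ℝ) ^ N → |circ (u s) x| ≤ M₁ * Real.exp (n₀ + 2) * (N:ℝ) ^ (-α) := by
    intro N hN s hs
    have hNN₀ : N₀ ≤ N := ((le_max_left _ _).trans (le_max_left _ _)).trans hN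
    have hNn₀ : n₀ ≤ N := ((le_max_right _ _).trans (le_max_left _ _)).trans hN
    have hN1 : 1 ≤ N := (le_max_right _ _).trans hN
    obtain ⟨K, hK, hKN⟩ := hN₀ N hNN₀ s ⟨ht₂0.trans_le hs.1, hs.2⟩
    have hρ : ∀ n : ℕ, 0 < cst q η α γ * K ^ (1 / (2 - q)) * (1 / 2 : ℝ) ^ n := fun n => by
      have : 0 < K ^ (1 / (2 - q)) := Real.rpow_pos_of_pos (by linarith) _
      positivity
    refine decay h hq1 hq2 hη hα hγ ht₀ hs.2 (fun t ht x => (hMt t ht x).trans hMM₁) hM₁0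
      hCM₁ (m := fun n => m (cst q η α γ * K ^ (1 / (2 - q)) * (1 / 2 : ℝ) ^ n))
      (J := fun n => J (cst q η α γ * K ^ (1 / (2 - q)) * (1 / 2 : ℝ) ^ n))
      (fun n => hm0 _ (hρ n)) (fun n => hJc _ (hρ n)) (fun n => hJd _ (hρ n))
      (fun n => hJm _ (hρ n)) ?_ hn₀r.le (by linarith [hs.1]) hNn₀ hN1 hK ?_ hKN
    · intro n t ht x hx hxr hxn
      rw [hη', sub_sub_cancel]
      refine hyp _ (hρ n) t ht x hx (hxn.trans_le ?_) hxr
      exact mul_le_mul_of_nonneg_right (lam_le_cst hq2 hη hα hγ hK) (by positivity)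
    intro n hn hGn
    have h4 : (1 / 4 : ℝ) ^ n ≤ (1 / 4) ^ n₀ := pow_le_pow_of_le_one (by norm_num) (by norm_num) hn
    have h4' : (0:ℝ) < (1 / 4) ^ n := by positivity
    have h5 := prim_sub (hmq _ (hρ n)) (a := s - (1 / 4) ^ n) (b := s)
      ⟨by linarith [hs.1], by linarith [hs.2]⟩ ⟨by linarith [hs.1], hs.2⟩
    simp only [hJ]
    rw [h5]
    refine hGn.trans_eq ?_
    rw [mul_comm (2 - q) (n:ℝ), Real.rpow_mul (by norm_num), Real.rpow_natCast]
  -- the constant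
  obtain ⟨Kb, hKb⟩ := h.bounded t₂ ht₂T
  have hKb0 : 0 ≤ Kb := (norm_nonneg _).trans (hKb 0 ⟨le_rfl, by linarith⟩ 0)
  set r₁ : ℝ := (1 / 2) ^ N₁ with hr₁'
  have hr₁0 : 0 < r₁ := by positivity
  have hr₁1 : r₁ < 1 := pow_lt_one₀ (by norm_num) (by norm_num) (by
    have : 1 ≤ N₁ := le_max_right _ _
    omega)
  set C := max (Kb * α ^ α) (max (M * |Real.log r₁| ^ α) (M₁ * Real.exp (n₀ + 2) * 2 ^ α)) with hC
  refine ⟨C, ?_⟩
  intro t ht x hx hxr
  have hx1 : rad x < 1 := hxr.trans hr₁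
  have hlp : 0 < |Real.log (rad x)| := abs_pos.2 (Real.log_neg hx hx1).ne
  have hnn : 0 ≤ |Real.log (rad x)| ^ (-α) := Real.rpow_nonneg hlp.le _
  by_cases htt : t ≤ t₂
  · calc |circ (u t) x| ≤ rad x * ‖u t x‖ := circ_le _ _
      _ ≤ rad x * Kb := mul_le_mul_of_nonneg_left (hKb t ⟨ht.1, htt⟩ x) hx.le
      _ ≤ (α ^ α * |Real.log (rad x)| ^ (-α)) * Kb :=
        mul_le_mul_of_nonneg_right (le_log hx hx1 hα) hKb0
      _ = (Kb * α ^ α) * |Real.log (rad x)| ^ (-α) := by ring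
      _ ≤ _ := mul_le_mul_of_nonneg_right (le_max_left _ _) hnn
  push Not at htt
  by_cases hxr1 : rad x ≤ r₁
  · -- the last `N` with `rad x ≤ 2^{-N}`
    obtain ⟨N, hN, hN1, hN2⟩ : ∃ N ≥ N₁, rad x ≤ (1 / 2 : ℝ) ^ N ∧ (1 / 2 : ℝ) ^ (N + 1) < rad x := by
      by_contra hcon
      push Not at hcon
      have hall : ∀ N ≥ N₁, rad x ≤ (1 / 2 : ℝ) ^ N := by
        intro N hN
        induction N, hN using Nat.le_induction with
        | base => exact hxr1
        | succ N hN ih => exact hcon N hN ih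
      obtain ⟨k, hk1, hk2⟩ := (((tendsto_pow_atTop_nhds_zero_of_lt_one
        (show (0:ℝ) ≤ 1 / 2 by norm_num) (by norm_num)).eventually_lt_const hx).and
        (eventually_ge_atTop N₁)).exists
      exact absurd (hall k hk2) (not_le.2 hk1)
    have hN1' : 1 ≤ N := (le_max_right _ _).trans hN
    have hNp : (0:ℝ) < N := by exact_mod_cast hN1'
    have hN1'' : (1:ℝ) ≤ N := by exact_mod_cast hN1'
    have hmain := hdec N hN t ⟨htt.le, ht.2⟩ x hx hN1
    have hlog2 : 0 < Real.log 2 := Real.log_pos (by norm_num)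
    have hlog2' : Real.log 2 < 1 := by
      have := Real.log_two_lt_d9; linarith
    have hl : |Real.log (rad x)| / 2 ≤ N := by
      have h1 := Real.log_le_log (by positivity) hN2.le
      have h3 : Real.log (1 / 2 : ℝ) = -Real.log 2 := by rw [one_div, Real.log_inv]
      rw [Real.log_pow, h3] at h1
      push_cast at h1
      rw [abs_of_neg (Real.log_neg hx hx1)]
      nlinarith
    have h2 : (N:ℝ) ^ (-α) ≤ (|Real.log (rad x)| / 2) ^ (-α) :=
      Real.rpow_le_rpow_of_nonpos (by positivity) hl (by linarith)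
    have h3 : (|Real.log (rad x)| / 2) ^ (-α) = 2 ^ α * |Real.log (rad x)| ^ (-α) := by
      rw [Real.div_rpow hlp.le (by norm_num), Real.rpow_neg (by norm_num : (0:ℝ) ≤ 2),
        div_inv_eq_mul, mul_comm]
    calc |circ (u t) x| ≤ M₁ * Real.exp (n₀ + 2) * (N:ℝ) ^ (-α) := hmain
      _ ≤ M₁ * Real.exp (n₀ + 2) * (2 ^ α * |Real.log (rad x)| ^ (-α)) := by
          rw [← h3]; exact mul_le_mul_of_nonneg_left h2 (by positivity)
      _ = (M₁ * Real.exp (n₀ + 2) * 2 ^ α) * |Real.log (rad x)| ^ (-α) := by ring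
      _ ≤ _ := mul_le_mul_of_nonneg_right ((le_max_right _ _).trans (le_max_right _ _)) hnn
  · push Not at hxr1
    have hl : |Real.log (rad x)| ≤ |Real.log r₁| := by
      rw [abs_of_neg (Real.log_neg hx hx1), abs_of_neg (Real.log_neg hr₁0 hr₁1)]
      have := Real.log_le_log hr₁0 hxr1.le
      linarith
    have hl1 : 0 < |Real.log r₁| := hlp.trans_le hl
    have h2 : |Real.log r₁| ^ (-α) ≤ |Real.log (rad x)| ^ (-α) :=
      Real.rpow_le_rpow_of_nonpos hlp hl (by linarith)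
    calc |circ (u t) x| ≤ M := hMt t ht x
      _ = (M * |Real.log r₁| ^ α) * |Real.log r₁| ^ (-α) := by
        rw [mul_assoc, ← Real.rpow_add hl1]; simp
      _ ≤ (M * |Real.log r₁| ^ α) * |Real.log (rad x)| ^ (-α) :=
        mul_le_mul_of_nonneg_left h2 (by positivity)
      _ ≤ _ := mul_le_mul_of_nonneg_right ((le_max_left _ _).trans (le_max_right _ _)) hnn

/-- `∫_{s-d}^s (K (T-t)^{-e})^q dt ≤ K^q d^{1-eq}/(1-eq)` -/
lemma integral_typeI {T s d q K e : ℝ} (hs : s < T) (hd : 0 ≤ d) (hq : 0 ≤ q) (he : 0 ≤ e)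
    (heq : e * q < 1) (hK : 0 ≤ K) :
    ∫ t in (s - d)..s, (K * (T - t) ^ (-e)) ^ q ≤ K ^ q / (1 - e * q) * d ^ (1 - e * q) := by
  have hθ : 0 < 1 - e * q := by linarith
  have h1 : ∀ t ∈ uIcc (s - d) s, HasDerivAt
      (fun t => -(K ^ q / (1 - e * q) * (T - t) ^ (1 - e * q))) ((K * (T - t) ^ (-e)) ^ q) t := by
    intro t ht
    rw [uIcc_of_le (by linarith)] at ht
    have hTt : 0 < T - t := by linarith [ht.2]
    have h2 : HasDerivAt (fun t => T - t) (-1) t := (hasDerivAt_id t).const_sub T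
    have h3 := ((h2.rpow_const (p := 1 - e * q) (Or.inl hTt.ne')).const_mul
      (K ^ q / (1 - e * q))).neg
    refine h3.congr_deriv ?_
    rw [Real.mul_rpow hK (Real.rpow_nonneg hTt.le _), ← Real.rpow_mul hTt.le,
      show 1 - e * q - 1 = -e * q by ring]
    field_simp
  have h5 : IntervalIntegrable (fun t => (K * (T - t) ^ (-e)) ^ q) volume (s - d) s := by
    apply ContinuousOn.intervalIntegrable
    rw [uIcc_of_le (by linarith)]
    intro t ht
    have hTt : 0 < T - t := by linarith [ht.2]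
    apply ContinuousAt.continuousWithinAt
    apply ContinuousAt.rpow_const _ (Or.inr hq)
    apply ContinuousAt.mul continuousAt_const
    exact ContinuousAt.rpow_const (by fun_prop) (Or.inl hTt.ne')
  rw [intervalIntegral.integral_eq_sub_of_hasDerivAt h1 h5]
  have h6 : (T - (s - d)) ^ (1 - e * q) ≤ (T - s) ^ (1 - e * q) + d ^ (1 - e * q) := by
    have := Real.rpow_add_le_add_rpow (p := 1 - e * q) (show 0 ≤ T - s by linarith) hd hθ.le
      (by nlinarith)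
    rwa [show T - s + d = T - (s - d) by ring] at this
  have h7 : 0 ≤ K ^ q / (1 - e * q) := by positivity
  nlinarith

/-- Special case: one-sided bounds `u_r ≥ -b/r - K₀ r^k (T-t)^{-(1+k)/2}`, of any size `K₀`. -/
theorem typeI (b α γ k : ℝ) (hb : b < 2) (hk : 0 ≤ k) (hbk : (1 + k) * max b 1 < 2) (hα : 0 < α)
    (hγ : 0 < γ) (T : ℝ) (u : ℝ → E3 → E3) (p : ℝ → E3 → ℝ) (h : IsAxisymNS T u p)
    (hΓ : ∃ M, ∀ x, |circ (u 0) x| ≤ M)
    (r₀ t₀ C₁ K₀ : ℝ) (hr₀ : 0 < r₀) (hr₁ : r₀ < 1) (ht₀ : 0 ≤ t₀) (ht₁ : t₀ < T) (hK₀ : 0 ≤ K₀)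
    (hyp : ∀ t ∈ Ioo t₀ T, ∀ x, 0 < rad x → rad x < r₀ → |circ (u t) x| ≤ C₁ * rad x ^ γ ∨
      -b - K₀ * rad x ^ k * (T - t) ^ (-((1 + k) / 2)) * rad x ≤ radFlux (u t) x) :
    ∃ C, ∀ t ∈ Ico 0 T, ∀ x, 0 < rad x → rad x < r₀ →
      |circ (u t) x| ≤ C * |Real.log (rad x)| ^ (-α) := by
  have h1k : 0 < 1 + k := by linarith
  have h1 : 1 ≤ max b 1 := le_max_right _ _
  have h2 : b ≤ max b 1 := le_max_left _ _
  have h3 : max b 1 < 2 := max_lt hb (by norm_num)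
  have h4 : max b 1 < 2 / (1 + k) := by rw [lt_div_iff₀ h1k]; linarith
  have h5 : 2 / (1 + k) ≤ 2 := by rw [div_le_iff₀ h1k]; linarith
  set q : ℝ := (max b 1 + 2 / (1 + k)) / 2 with hq
  have hq1 : 1 ≤ q := by rw [hq]; linarith
  have hq2 : q < 2 := by rw [hq]; linarith
  have hbq : b < q := by rw [hq]; linarith
  have hqk : q < 2 / (1 + k) := by rw [hq]; linarith
  have hqk' : (1 + k) / 2 * q < 1 := by
    rw [lt_div_iff₀ h1k] at hqk; linarith
  set θ : ℝ := 1 - (1 + k) / 2 * q with hθ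
  have hθ0 : 0 < θ := by rw [hθ]; linarith
  have hq0 : 0 < 2 - q := by linarith
  obtain ⟨A, hA, hres⟩ := result b q α γ hq1 hq2 hbq hα hγ
  refine hres T u p h hΓ r₀ t₀ C₁ hr₀ hr₁ ht₀ ht₁
    (fun ρ t => K₀ * ρ ^ k * (T - t) ^ (-((1 + k) / 2))) ?_ ?_ ?_ ?_
  · intro ρ _ t ht
    have hTt : 0 < T - t := by linarith [ht.2]
    apply ContinuousAt.continuousWithinAt
    apply ContinuousAt.mul continuousAt_const
    exact ContinuousAt.rpow_const (by fun_prop) (Or.inl hTt.ne')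
  · intro ρ hρ t ht
    have hTt : 0 ≤ T - t := by linarith [ht.2]
    have := Real.rpow_nonneg hTt (-((1 + k) / 2))
    positivity
  · intro ρ hρ t ht x hx hxρ hxr
    rcases hyp t ht x hx hxr with h6 | h6
    · exact Or.inl h6
    · right
      refine le_trans ?_ h6
      have hTt : 0 ≤ T - t := by linarith [ht.2]
      have h7 := Real.rpow_nonneg hTt (-((1 + k) / 2))
      have h8 : rad x ^ k ≤ ρ ^ k := Real.rpow_le_rpow hx.le hxρ.le hk
      have h9 : K₀ * rad x ^ k * (T - t) ^ (-((1 + k) / 2)) * rad x ≤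
          K₀ * ρ ^ k * (T - t) ^ (-((1 + k) / 2)) * rad x := by gcongr
      linarith
  · set c₀ := K₀ ^ q * A ^ (k * q) / θ with hc₀
    have hδ : 0 < 2 - q - k * q := by
      have : (1 + k) / 2 * q * 2 = q + k * q := by ring
      linarith
    set K := max 1 c₀ ^ ((2 - q) / (2 - q - k * q)) with hK
    have hK1 : 1 ≤ K := Real.one_le_rpow (le_max_left _ _) (by positivity)
    have hKpos : 0 < K := by linarith
    -- `c₀ K^{kq/(2-q)} ≤ K`
    have hKc : c₀ * K ^ (k * q / (2 - q)) ≤ K := by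
      have e1 : K ^ ((2 - q - k * q) / (2 - q)) = max 1 c₀ := by
        have e0 : (2 - q) / (2 - q - k * q) * ((2 - q - k * q) / (2 - q)) = 1 := by
          rw [div_mul_div_comm, mul_comm, div_self (mul_pos hδ hq0).ne']
        rw [hK, ← Real.rpow_mul (by positivity), e0, Real.rpow_one]
      calc c₀ * K ^ (k * q / (2 - q)) ≤ max 1 c₀ * K ^ (k * q / (2 - q)) :=
            mul_le_mul_of_nonneg_right (le_max_right _ _) (by positivity)
        _ = K ^ ((2 - q - k * q) / (2 - q)) * K ^ (k * q / (2 - q)) := by rw [e1]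
        _ = K := by
            rw [← Real.rpow_add hKpos, ← add_div,
              show 2 - q - k * q + k * q = 2 - q by ring, div_self hq0.ne', Real.rpow_one]
    clear_value K
    have hev := Real.isLittleO_log_id_atTop.def
      (show 0 < 1 / Real.exp (A * K ^ (2 / (2 - q))) by positivity)
    have hev2 := tendsto_natCast_atTop_atTop.eventually hev
    obtain ⟨N₀, hN₀⟩ := eventually_atTop.1 hev2
    refine ⟨max N₀ 1, fun N hN s hs => ⟨K, hK1, ?_⟩⟩
    have hN1 : 1 ≤ N := (le_max_right _ _).trans hN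
    have h6 := hN₀ N ((le_max_left _ _).trans hN)
    have hall : ({n : ℕ | n ≤ N ∧ ∫ t in (s - (1 / 4) ^ n)..s,
        (K₀ * (A * K ^ (1 / (2 - q)) * (1 / 2) ^ n) ^ k * (T - t) ^ (-((1 + k) / 2))) ^ q ≤
        K * (1 / 2) ^ ((2 - q) * n)} : Set ℕ) = Set.Iic N := by
      ext n
      simp only [Set.mem_ofPred_eq, Set.mem_Iic, and_iff_left_iff_imp]
      intro _
      have hKn : 0 < K ^ (1 / (2 - q)) := Real.rpow_pos_of_pos hKpos _
      have h2n : (0:ℝ) < (1 / 2) ^ n := by positivity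
      refine (integral_typeI hs.2 (by positivity) (by linarith) (by positivity) hqk'
        (by positivity)).trans ?_
      rw [← hθ]
      have e1 : (K₀ * (A * K ^ (1 / (2 - q)) * (1 / 2) ^ n) ^ k) ^ q
          = K₀ ^ q * A ^ (k * q) * K ^ (k * q / (2 - q)) * (1 / 2) ^ (k * q * n) := by
        rw [Real.mul_rpow hK₀ (by positivity), ← Real.rpow_mul (by positivity),
          Real.mul_rpow (by positivity) h2n.le, Real.mul_rpow hA.le hKn.le,
          ← Real.rpow_mul hKpos.le, ← Real.rpow_natCast, ← Real.rpow_mul (by norm_num)]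
        rw [show 1 / (2 - q) * (k * q) = k * q / (2 - q) by ring,
          show (n:ℝ) * (k * q) = k * q * n by ring]
        ring
      have e2 : ((1 / 4 : ℝ) ^ n) ^ θ = (1 / 2) ^ (2 * θ * n) := by
        rw [show (1 / 4 : ℝ) = (1 / 2) ^ (2:ℝ) by norm_num, ← Real.rpow_natCast,
          ← Real.rpow_mul (by norm_num), ← Real.rpow_mul (by norm_num)]
        congr 1
        ring
      have e3 : (1 / 2 : ℝ) ^ (k * q * n) * (1 / 2) ^ (2 * θ * n) = (1 / 2) ^ ((2 - q) * n) := by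
        rw [← Real.rpow_add (by norm_num)]
        congr 1
        rw [hθ]; ring
      calc (K₀ * (A * K ^ (1 / (2 - q)) * (1 / 2) ^ n) ^ k) ^ q / θ * ((1 / 4 : ℝ) ^ n) ^ θ
          = (c₀ * K ^ (k * q / (2 - q))) *
            ((1 / 2 : ℝ) ^ (k * q * n) * (1 / 2) ^ (2 * θ * n)) := by
            rw [e1, e2, hc₀]; ring
        _ ≤ K * (1 / 2) ^ ((2 - q) * n) := by
            rw [e3]
            exact mul_le_mul_of_nonneg_right hKc (by positivity)
    rw [hall]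
    have h7 : (Set.Iic N).ncard = N + 1 := by
      rw [Set.ncard_eq_toFinset_card']
      simp
    rw [h7]
    have hlog : 0 ≤ Real.log N := Real.log_nonneg (by exact_mod_cast hN1)
    simp only [id, Real.norm_eq_abs, abs_of_nonneg hlog, Nat.abs_cast] at h6
    rw [div_mul_eq_mul_div, one_mul, le_div_iff₀ (Real.exp_pos _)] at h6
    push_cast
    linarith

end Pool.Agent.H94.NS.MorreyInflowParked
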